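import Pool.Agent.helper22.GS.Spec

/-!
# gs:CM — complements of a vector
-/

set_option autoImplicit false

namespace Pool.Agent.GS

open Module

noncomputable section

section
variable {F W : Type} [Field F] [AddCommGroup W] [Module F W]

/-- the map `(c, w) ↦ c v + w` -/
def CM_f (W' : Submodule F W) (v : W) : F × W' →ₗ[F] W :=
  (LinearMap.toSpanSingleton F W v).comp (LinearMap.fst F F W') + W'.subtype.comp (LinearMap.snd F F W')

theorem CM_f_apply (W' : Submodule F W) (v : W) (c : F) (w : W') : CM_f W' v (c, w) = c • v + w := by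
  simp [CM_f, LinearMap.toSpanSingleton_apply]

theorem CM_bij (b : LinearMap.BilinForm F W) (v : W) (hv : b v v ≠ 0) (W' : Submodule F W)
    (hW : ∀ x, x ∈ W' ↔ b v x = 0) : Function.Bijective (CM_f W' v) := by
  constructor
  · rw [← LinearMap.ker_eq_bot, LinearMap.ker_eq_bot']
    rintro ⟨c, w⟩ h
    rw [CM_f_apply] at h
    have h1 := congrArg (b v) h
    rw [map_add, map_smul, (hW w).mp w.2, add_zero, map_zero, smul_eq_mul] at h1
    have hc : c = 0 := (mul_eq_zero.mp h1).resolve_right hv
    rw [hc, zero_smul, zero_add] at h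
    ext
    · exact hc
    · exact h
  · intro x
    have hx : x - (b v x / b v v) • v ∈ W' := by
      rw [hW, map_sub, map_smul, smul_eq_mul, div_mul_cancel₀ _ hv, sub_self]
    refine ⟨(b v x / b v v, ⟨_, hx⟩), ?_⟩
    rw [CM_f_apply]
    simp

end

theorem CM : CM_stmt := by
  intro F W ι _ _ _ _ _ _ b hb β v hv
  set W' : Submodule F W := LinearMap.ker (b v) with hW'
  have hW : ∀ x, x ∈ W' ↔ b v x = 0 := fun x => LinearMap.mem_ker
  have hbij := CM_bij b v hv W' hW
  set f := LinearEquiv.ofBijective (CM_f W' v) hbij with hf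
  have hSym : Sym (b.domRestrict₁₂ W' W') := by
    refine ⟨fun x y => ?_, fun x hx => ?_⟩
    · simp only [LinearMap.domRestrict₁₂_apply]
      exact hb.symm _ _
    · apply Subtype.ext
      apply hb.nd
      intro y
      obtain ⟨⟨c, w⟩, rfl⟩ := hbij.2 y
      rw [CM_f_apply, map_add, map_smul, hb.symm _ v, (hW x).mp x.2, smul_zero, zero_add]
      exact hx w
  refine ⟨W', hW, hSym, ?_, ?_⟩
  · have h := LinearEquiv.finrank_eq f
    rw [Module.finrank_prod, Module.finrank_self] at h
    omega
  intro κ _ _ γ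
  have hnd : (LinearMap.BilinForm.toMatrix β b).det ≠ 0 := by
    rw [← LinearMap.BilinForm.nondegenerate_iff_det_ne_zero]
    exact ⟨fun x hx => hb.nd x hx, fun x hx => hb.nd x (fun y => by rw [hb.symm]; exact hx y)⟩
  have hdt : dt b β = (LinearMap.BilinForm.toMatrix β b).det := by
    unfold dt
    congr 1
    ext i j
    rw [LinearMap.BilinForm.toMatrix_apply]
    rfl
  refine ⟨hdt ▸ hnd, ?_⟩
  set u : Basis (Unit ⊕ κ) F W := ((Basis.singleton Unit F).prod γ).map f with hu
  have hu1 : u (.inl ()) = v := by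
    rw [hu, Basis.map_apply, Basis.prod_apply]
    simp [hf, CM_f_apply]
  have hu2 : ∀ i, u (.inr i) = γ i := by
    intro i
    rw [hu, Basis.map_apply, Basis.prod_apply]
    simp [hf, CM_f_apply]
  have hcard : Fintype.card (Unit ⊕ κ) = Fintype.card ι := by
    rw [← Module.finrank_eq_card_basis u, ← Module.finrank_eq_card_basis β]
  set e : (Unit ⊕ κ) ≃ ι := Fintype.equivOfCardEq hcard with he
  have hG : (LinearMap.BilinForm.toMatrix (u.reindex e) b).det = b v v * dt (b.domRestrict₁₂ W' W') γ := by
    have h1 : LinearMap.BilinForm.toMatrix (u.reindex e) b =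
        (Matrix.fromBlocks (Matrix.of fun _ _ : Unit => b v v) 0 0
          (Matrix.of fun i j => b.domRestrict₁₂ W' W' (γ i) (γ j))).submatrix e.symm e.symm := by
      ext i j
      rw [LinearMap.BilinForm.toMatrix_apply, Basis.reindex_apply, Basis.reindex_apply,
        Matrix.submatrix_apply]
      rcases e.symm i with i | i
      · rcases e.symm j with j | j
        · rw [hu1]; rfl
        · rw [hu1, hu2, (hW _).mp (γ j).2]; rfl
      · rcases e.symm j with j | j
        · rw [hu1, hu2, hb.symm, (hW _).mp (γ i).2]; rfl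
        · rw [hu2, hu2]; rfl
    rw [h1, Matrix.det_submatrix_equiv_self, Matrix.det_fromBlocks_zero₂₁]
    unfold dt
    rw [Matrix.det_unique]
    rfl
  have hP := LinearMap.BilinForm.toMatrix_mul_basis_toMatrix (u.reindex e) β b
  rw [← hG, hdt, ← hP, Matrix.det_mul, Matrix.det_mul, Matrix.det_transpose]
  exact ⟨((u.reindex e).toMatrix β).det * (LinearMap.BilinForm.toMatrix (u.reindex e) b).det, by ring⟩

end

end Pool.Agent.GS
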