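import Pool.Agent.helper22.GS.Spec

/-!
# gs:M1 — `m = 1`, `y` linear
-/

set_option autoImplicit false

namespace Pool.Agent.GS

open Module

noncomputable section

theorem M1 (hH1 : H1_stmt) (hN2 : N2_stmt) : M1_stmt := by
  intro F V _ _ _ _ B hB y ν hy v hc r hr hr2 hdv
  obtain ⟨σ, hσ, s, hs⟩ := hH1 r hr hr2 hdv ν hy.ne
  have hν := hy.ne
  set c : F := B (y v) v with hcdef
  set a : F := s / c with ha
  have ha2 : ν⁻¹ * (a * c * (a * c)) = σ := by
    rw [ha, div_mul_cancel₀ _ hc, ← hs, mul_comm σ ν, ← mul_assoc, inv_mul_cancel₀ hν, one_mul]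
  have hBv : B v (y v) = -c := by rw [hB.neg v (y v)]
  have hz : y * tv B v a * y⁻¹ * (tv B v a)⁻¹ = tv B (y v) (ν⁻¹ * a) * tv B v (-a) := by
    rw [tv_conj hB hy, tv_inv hB]
    rfl
  refine ⟨tv B (y v) (ν⁻¹ * a) * tv B v (-a), (SpG B).mul_mem (tv_mem hB _ _) (tv_mem hB _ _), ?_, ?_⟩
  · rw [← hz]
    exact Gen.comm (tv_mem hB v a)
  · have hli : LinearIndependent F ![v, y v] := by
      rw [LinearIndependent.pair_iff]
      intro p q hpq
      have h1 := congrArg (fun w => B w v) hpq
      have h2 := congrArg (fun w => B w (y v)) hpq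
      simp only [map_add, map_smul, LinearMap.add_apply, LinearMap.smul_apply, smul_eq_mul, hB.alt,
        mul_zero, zero_add, add_zero, map_zero, LinearMap.zero_apply, ← hcdef, hBv] at h1 h2
      refine ⟨(mul_eq_zero.mp h2).resolve_right (neg_ne_zero.mpr hc), (mul_eq_zero.mp h1).resolve_right hc⟩
    refine hN2 r 1 σ hσ _ ((tv_lin hB _ _).mul (tv_lin hB _ _)) v (y v) hli
      !![1, -(a * c); -(ν⁻¹ * a * c), 1 + ν⁻¹ * (a * c * (a * c))] ?_ ?_ ?_ ?_
    · rw [Matrix.det_fin_two_of]
      ring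
    · rw [Matrix.trace_fin_two_of, ha2]
      ring
    · rw [Equiv.Perm.mul_apply, tv_apply hB, tv_apply hB, hB.alt, mul_zero, zero_smul, add_zero, hBv]
      simp only [Matrix.of_apply, Matrix.cons_val', Matrix.cons_val_zero, Matrix.cons_val_one,
        Matrix.cons_val_fin_one, one_smul]
      congr 2
      ring
    · rw [Equiv.Perm.mul_apply, tv_apply hB, tv_apply hB, ← hcdef]
      simp only [Matrix.of_apply, Matrix.cons_val', Matrix.cons_val_zero, Matrix.cons_val_one,
        Matrix.cons_val_fin_one, map_add, map_smul, LinearMap.add_apply, LinearMap.smul_apply,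
        smul_eq_mul, hB.alt, hBv, zero_add]
      module

end

end Pool.Agent.GS
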