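import Pool.Agent.helper22.GS.Spec

/-!
# gs:MU — the vector `u0`
-/

set_option autoImplicit false

namespace Pool.Agent.GS

open Module

noncomputable section

theorem MU_dt {F V ι κ : Type} [Field F] [AddCommGroup V] [Module F V] [Fintype ι] [DecidableEq ι]
    [Fintype κ] [DecidableEq κ] (b : LinearMap.BilinForm F V) (β : Basis ι F V) (e : ι ≃ κ) :
    dt b (β.reindex e) = dt b β := by
  unfold dt
  rw [← Matrix.det_submatrix_equiv_self e]
  congr 1
  ext i j
  simp

theorem MU (hBF : BF_stmt) (hUN : UN_stmt) (hQ5 : Q5_stmt) (hQ3 : Q3_stmt) : MU_stmt := by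
  intro F K _ _ _ _ _ k β₀ hch hk σ τ δ hσ hτ hδ hsq htr
  have hF : Finite F := Finite.of_injective (algebraMap F K) (algebraMap F K).injective
  have hrk : finrank F K = 1 + (k + k) := by
    rw [Module.finrank_eq_card_basis β₀]
    simp
  by_cases hc : k = 1 ∧ ¬ IsSquare τ
  · obtain ⟨rfl, hns⟩ := hc
    have hodd : Nat.card F % 2 = 1 := by
      have := Fintype.ofFinite F
      rw [Nat.card_eq_fintype_card]
      exact FiniteField.odd_card_of_char_ne_two hch
    have hone : 1 < Nat.card F := Finite.one_lt_card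
    rcases lt_or_ge (Nat.card F) 5 with h5 | h5
    · have h3 : Nat.card F = 3 := by omega
      have hτ1 : τ ^ 2 = 1 := by
        have := Fintype.ofFinite F
        have h := FiniteField.pow_card_sub_one_eq_one τ hτ
        rw [← Nat.card_eq_fintype_card, h3] at h
        exact h
      have hτ2 : -τ = 1 := by
        have h : (τ - 1) * (τ + 1) = 0 := by linear_combination hτ1
        rcases mul_eq_zero.mp h with h | h
        · exact absurd (by rw [sub_eq_zero.mp h]; exact IsSquare.one) hns
        · linear_combination -h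
      have hsq' : IsSquare (dt (bf F K 1) β₀ * δ) := by
        rw [hτ2, one_pow, mul_one] at hsq
        exact hsq
      obtain ⟨u, hu1, hu2⟩ := hQ3 (β₀.reindex ((Equiv.sumCongr (Equiv.ofUnique Unit (Fin 1))
        (finSumFinEquiv (m := 1) (n := 1))).trans (finSumFinEquiv (m := 1) (n := 2)))) hch 1 σ δ one_ne_zero hδ (by
          rw [MU_dt]; exact hsq') (htr h3 rfl hns)
      refine ⟨u, hu1, fun _ _ => ?_⟩
      rwa [inv_one, mul_one] at hu2
    · obtain ⟨u, hu1, hu2⟩ := hQ5 hch h5 (by rw [hrk]) 1 σ δ one_ne_zero hσ hδ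
      refine ⟨u, hu1, fun _ _ => ?_⟩
      rwa [inv_one, mul_one] at hu2
  · obtain ⟨u, hu⟩ := hUN (bf F K 1) hch (hBF.1 1 one_ne_zero) (by rw [hrk]; omega) δ hδ
    exact ⟨u, hu, fun h1 h2 => absurd ⟨h1, h2⟩ hc⟩

end

end Pool.Agent.GS
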